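import Mathlib

set_option autoImplicit false

/-!
# Hausdorff dimension from covers along a subsequence of scales
-/

open Filter Topology MeasureTheory
open scoped ENNReal NNReal

namespace Pool.Agent.H599.FF2

theorem dimH_le_of_covers {X : Type} [MetricSpace X] (E : Set X) (q : ℝ) (hq : 1 < q) (s : ℝ≥0)
    (M L : ℕ → ℕ) (hL : Tendsto L atTop atTop) (t : ∀ k, Fin (M k) → Set X)
    (hd : ∀ k i, Metric.ediam (t k i) ≤ ENNReal.ofReal (q⁻¹ ^ (L k)))
    (hc : ∀ k, E ⊆ ⋃ i, t k i)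
    (hlim : ∃ᶠ k in atTop, (M k : ℝ) * (q⁻¹ ^ (L k)) ^ (s : ℝ) ≤ 1) : dimH E ≤ s := by
  borelize X
  have hq0 : 0 < q := by linarith
  have hqi0 : 0 < q⁻¹ := inv_pos.2 hq0
  have hqi1 : q⁻¹ < 1 := inv_lt_one_of_one_lt₀ hq
  apply dimH_le_of_hausdorffMeasure_ne_top
  have hr : Tendsto (fun k => ENNReal.ofReal (q⁻¹ ^ (L k))) atTop (𝓝 0) := by
    rw [← ENNReal.ofReal_zero]
    apply ENNReal.tendsto_ofReal
    exact (tendsto_pow_atTop_nhds_zero_of_lt_one hqi0.le hqi1).comp hL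
  have h1 := Measure.hausdorffMeasure_le_liminf_sum (X := X) (β := ℕ) (ι := fun k => Fin (M k)) (s : ℝ) E
    (l := atTop) (fun k => ENNReal.ofReal (q⁻¹ ^ (L k))) hr t (Eventually.of_forall fun k i => hd k i)
    (Eventually.of_forall hc)
  have h2 : liminf (fun k => ∑ i, Metric.ediam (t k i) ^ (s : ℝ)) atTop ≤ 1 := by
    apply Filter.liminf_le_of_frequently_le'
    refine hlim.mono fun k hk => ?_
    calc ∑ i, Metric.ediam (t k i) ^ (s : ℝ) ≤ ∑ _i : Fin (M k), (ENNReal.ofReal (q⁻¹ ^ (L k))) ^ (s : ℝ) :=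
          Finset.sum_le_sum fun i _ => ENNReal.rpow_le_rpow (hd k i) s.2
      _ = ENNReal.ofReal ((M k : ℝ) * (q⁻¹ ^ (L k)) ^ (s : ℝ)) := by
          rw [Finset.sum_const, Finset.card_univ, Fintype.card_fin, nsmul_eq_mul,
            ENNReal.ofReal_rpow_of_nonneg (by positivity) (NNReal.coe_nonneg s), ENNReal.ofReal_mul (by positivity),
            ENNReal.ofReal_natCast]
      _ ≤ ENNReal.ofReal 1 := ENNReal.ofReal_le_ofReal hk
      _ = 1 := ENNReal.ofReal_one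
  exact ne_top_of_le_ne_top ENNReal.one_ne_top (h1.trans h2)

/-- the numerical condition -/
theorem numeric (q : ℝ) (hq : 1 < q) (p : ℕ) (hp : 2 ≤ p) (m δ : ℕ) (N : ℕ → ℕ) (a s : ℝ) (ha : ((δ : ℝ) + 1) * a < s)
    (hN : ∃ᶠ k in atTop, (N k : ℝ) ≤ a * (p : ℝ) ^ k) :
    ∃ᶠ k in atTop, (((p : ℝ) ^ k) ^ m * q ^ ((δ + 1) * N k)) * (q⁻¹ ^ (p ^ k)) ^ s ≤ 1 := by
  have hq0 : 0 < q := by linarith
  set c : ℝ := s - ((δ : ℝ) + 1) * a with hc
  have hc0 : 0 < c := by linarith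
  have hlog : 0 < Real.log q := Real.log_pos hq
  -- `Q ^ m ≤ q ^ (c Q)` for large `Q`
  have h1 : ∀ᶠ k : ℕ in atTop, (((p : ℝ) ^ k) ^ m) * Real.exp (-(c * Real.log q) * (p : ℝ) ^ k) ≤ 1 := by
    have h2 : Tendsto (fun x : ℝ => x ^ m * Real.exp (-(c * Real.log q) * x)) atTop (𝓝 0) := by
      have h3 := Real.tendsto_pow_mul_exp_neg_atTop_nhds_zero m
      have hcl : 0 < c * Real.log q := by positivity
      have h4 : Tendsto (fun x : ℝ => (c * Real.log q) * x) atTop atTop := tendsto_id.const_mul_atTop hcl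
      have h5 := h3.comp h4
      have h6 : Tendsto (fun x : ℝ => ((c * Real.log q) ^ m)⁻¹ * (((c * Real.log q) * x) ^ m *
          Real.exp (-((c * Real.log q) * x)))) atTop (𝓝 (((c * Real.log q) ^ m)⁻¹ * 0)) := h5.const_mul _
      rw [mul_zero] at h6
      refine h6.congr fun x => ?_
      have hne : (c * Real.log q) ^ m ≠ 0 := by positivity
      rw [mul_pow (c * Real.log q) x m, neg_mul, mul_assoc, ← mul_assoc, inv_mul_cancel₀ hne, one_mul]
    have h3 : Tendsto (fun k : ℕ => (p : ℝ) ^ k) atTop atTop :=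
      tendsto_pow_atTop_atTop_of_one_lt (by exact_mod_cast (by omega : 1 < p))
    exact (h2.comp h3).eventually (ge_mem_nhds (by norm_num : (0:ℝ) < 1))
  refine (hN.and_eventually h1).mono ?_
  rintro k ⟨h2, h3⟩
  refine le_trans ?_ h3
  rw [mul_assoc]
  apply mul_le_mul_of_nonneg_left _ (by positivity)
  have e1 : q ^ ((δ + 1) * N k) = Real.exp (Real.log q * (((δ : ℝ) + 1) * N k)) := by
    rw [← Real.rpow_natCast, Real.rpow_def_of_pos hq0]
    push_cast
    ring_nf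
  have e2 : (q⁻¹ ^ (p ^ k)) ^ s = Real.exp (-(Real.log q) * ((p : ℝ) ^ k * s)) := by
    rw [← Real.rpow_natCast, ← Real.rpow_mul (by positivity), Real.rpow_def_of_pos (by positivity), Real.log_inv]
    push_cast
    ring_nf
  rw [e1, e2, ← Real.exp_add]
  apply Real.exp_le_exp.2
  have h4 : ((δ : ℝ) + 1) * N k ≤ ((δ : ℝ) + 1) * (a * (p : ℝ) ^ k) :=
    mul_le_mul_of_nonneg_left h2 (by positivity)
  have h5 := mul_le_mul_of_nonneg_left h4 hlog.le
  rw [hc]
  nlinarith [h5]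

end Pool.Agent.H599.FF2
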