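import Mathlib

set_option autoImplicit false

/-!
# Multiplication by polynomials on digit sequences in characteristic `p`, and decimations
-/

open Polynomial Finset

namespace Pool.Agent.H599.FF

variable {F : Type} [Field F]

/-- the shift -/
def sh : (ℕ → F) →ₗ[F] (ℕ → F) where
  toFun x := fun n => x (n + 1)
  map_add' _ _ := rfl
  map_smul' _ _ := rfl

lemma sh_pow (i : ℕ) : ∀ (x : ℕ → F) (n : ℕ), ((sh : Module.End F (ℕ → F)) ^ i) x n = x (n + i) := by
  induction i with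
  | zero => intro x n; simp
  | succ i ih =>
    intro x n
    rw [pow_succ, Module.End.mul_apply, ih]
    show x (n + i + 1) = _
    rfl

/-- multiplication by a polynomial -/
noncomputable def ml (A : F[X]) (x : ℕ → F) : ℕ → F :=
  fun n => ∑ i ∈ Finset.range (A.natDegree + 1), A.coeff i * x (n + i)

lemma ml_eq (A : F[X]) (x : ℕ → F) : ml A x = (aeval (sh : Module.End F (ℕ → F)) A) x := by
  funext n
  rw [aeval_eq_sum_range, LinearMap.sum_apply, Finset.sum_apply]
  unfold ml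
  refine Finset.sum_congr rfl fun i _ => ?_
  rw [LinearMap.smul_apply, Pi.smul_apply, sh_pow, smul_eq_mul]

lemma ml_mul (A B : F[X]) (x : ℕ → F) : ml (A * B) x = ml A (ml B x) := by
  rw [ml_eq, ml_eq, ml_eq, map_mul, Module.End.mul_apply]

/-- decimation -/
def dec (Q r : ℕ) (x : ℕ → F) : ℕ → F := fun n => x (Q * n + r)

lemma dec_expand (Q r : ℕ) (G : F[X]) (x : ℕ → F) :
    dec Q r (ml (expand F Q G) x) = ml G (dec Q r x) := by
  funext n
  unfold dec
  rw [ml_eq, expand_aeval, aeval_eq_sum_range, LinearMap.sum_apply, Finset.sum_apply]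
  unfold ml
  refine Finset.sum_congr rfl fun i _ => ?_
  rw [LinearMap.smul_apply, Pi.smul_apply, ← pow_mul, sh_pow, smul_eq_mul]
  congr 2
  ring

lemma dec_pow (p : ℕ) [Fact p.Prime] [CharP F p] (k r : ℕ) (B : F[X]) (x : ℕ → F) :
    dec (p ^ k) r (ml (B ^ p ^ k) x) = ml (map (iterateFrobenius F p k) B) (dec (p ^ k) r x) := by
  have : ExpChar F p := ExpChar.prime Fact.out
  rw [← map_iterateFrobenius_expand p B k, map_expand, dec_expand]

lemma key (p : ℕ) [Fact p.Prime] [CharP F p] (k : ℕ) {Q : ℕ} (hQ : Q = p ^ k) (B : F[X]) (x : ℕ → F) (j : ℕ) :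
    ml (map (iterateFrobenius F p k) B) (dec Q (j % Q) x) (j / Q) = ml (B ^ p ^ k) x j := by
  subst hQ
  rw [← dec_pow (F := F) p k (j % p ^ k) B x]
  unfold dec
  rw [Nat.div_add_mod]

open Classical in
/-- the set of the decimations -/
noncomputable def decs (Q : ℕ) (x : ℕ → F) : Finset (ℕ → F) := (Finset.range Q).image (fun r => dec Q r x)

omit [Field F] in
lemma dec_mem {Q : ℕ} (hQ : 0 < Q) (x : ℕ → F) (j : ℕ) : dec Q (j % Q) x ∈ decs Q x := by
  classical
  unfold decs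
  exact Finset.mem_image.2 ⟨j % Q, Finset.mem_range.2 (Nat.mod_lt _ hQ), rfl⟩

lemma natDegree_le {m : ℕ} (A : Fin m → F[X]) (e : Fin m → ℕ) {Q : ℕ} (he : ∀ i, e i ≤ Q) :
    (∏ i, A i ^ e i).natDegree ≤ Q * ∑ i, (A i).natDegree := by
  refine (natDegree_prod_le _ _).trans ?_
  rw [Finset.mul_sum]
  refine Finset.sum_le_sum fun i _ => ?_
  exact (natDegree_pow_le).trans (Nat.mul_le_mul_right _ (he i))

theorem count (p : ℕ) [Fact p.Prime] [CharP F p] [Fintype F] (x : ℕ → F) (k m : ℕ) (A : Fin m → F[X]) :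
    {w : Fin (p ^ k) → F | ∃ e : Fin m → ℕ, w = fun i : Fin (p ^ k) => ml (∏ i, A i ^ e i) x i}.Finite ∧
    {w : Fin (p ^ k) → F | ∃ e : Fin m → ℕ, w = fun i : Fin (p ^ k) => ml (∏ i, A i ^ e i) x i}.ncard ≤
      (p ^ k) ^ m * (Fintype.card F) ^ ((∑ i, (A i).natDegree + 1) * (decs (p ^ k) x).card) := by
  classical
  have hp : 0 < p := (Fact.out : p.Prime).pos
  obtain ⟨Q, hQ⟩ : ∃ Q, Q = p ^ k := ⟨_, rfl⟩
  have hQ0 : 0 < Q := by rw [hQ]; positivity
  set δ : ℕ := ∑ i, (A i).natDegree with hδ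
  refine ⟨Set.toFinite _, ?_⟩
  -- the parametrization
  let vg : (↥(decs Q x) → Fin (δ + 1) → F) → ℕ → F := fun g j =>
    if h : j / Q < δ + 1 then g ⟨dec Q (j % Q) x, dec_mem hQ0 x j⟩ ⟨j / Q, h⟩ else 0
  let Φ : (Fin m → Fin Q) × (↥(decs Q x) → Fin (δ + 1) → F) → (Fin (p ^ k) → F) := fun rg i =>
    ml (∏ i, A i ^ (rg.1 i : ℕ)) (vg rg.2) i
  have hsub : {w : Fin (p ^ k) → F | ∃ e : Fin m → ℕ, w = fun i : Fin (p ^ k) => ml (∏ i, A i ^ e i) x i} ⊆
      Set.range Φ := by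
    rintro w ⟨e, rfl⟩
    refine ⟨(fun i => ⟨e i % Q, Nat.mod_lt _ hQ0⟩,
      fun s n => ml (map (iterateFrobenius F p k) (∏ i, A i ^ (e i / Q))) s n), ?_⟩
    funext i
    have hi : (i : ℕ) < Q := by rw [hQ]; exact i.2
    have hB : (∏ i, A i ^ e i) = (∏ i, A i ^ (e i % Q)) * (∏ i, A i ^ (e i / Q)) ^ p ^ k := by
      rw [← Finset.prod_pow, ← Finset.prod_mul_distrib]
      refine Finset.prod_congr rfl fun i _ => ?_
      rw [← pow_mul, ← pow_add, ← hQ]
      congr 1
      rw [mul_comm]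
      exact (Nat.mod_add_div _ _).symm
    show ml (∏ i, A i ^ (e i % Q)) _ i = _
    rw [hB, ml_mul]
    unfold ml
    refine Finset.sum_congr rfl fun a ha => ?_
    congr 1
    -- the value at `i + a`
    have hdeg : (∏ i, A i ^ (e i % Q)).natDegree ≤ (Q - 1) * δ :=
      natDegree_le A (fun i => e i % Q) (fun i => by have := Nat.mod_lt (e i) hQ0; omega)
    have ha2 : a ≤ (Q - 1) * δ := by
      have := Finset.mem_range.1 ha
      omega
    have hlt : ((i : ℕ) + a) / Q < δ + 1 := by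
      rw [Nat.div_lt_iff_lt_mul hQ0]
      have h1 : (Q - 1) * δ ≤ Q * δ := Nat.mul_le_mul_right _ (by omega)
      nlinarith
    show (if h : ((i : ℕ) + a) / Q < δ + 1 then _ else 0) = _
    rw [dif_pos hlt]
    show ml (map (iterateFrobenius F p k) (∏ i, A i ^ (e i / Q))) (dec Q (((i : ℕ) + a) % Q) x) (((i : ℕ) + a) / Q) = _
    exact key (F := F) p k hQ _ x _
  refine (Set.ncard_le_ncard hsub (Set.toFinite _)).trans ?_
  have h3 : (Set.range Φ).ncard ≤ Nat.card ((Fin m → Fin Q) × (↥(decs Q x) → Fin (δ + 1) → F)) := by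
    rw [← Set.image_univ]
    refine (Set.ncard_image_le (Set.toFinite _)).trans ?_
    rw [Set.ncard_univ]
  refine h3.trans (le_of_eq ?_)
  rw [Nat.card_prod, Nat.card_eq_fintype_card, Nat.card_eq_fintype_card, Fintype.card_fun, Fintype.card_fun,
    Fintype.card_fun, Fintype.card_fin, Fintype.card_fin, Fintype.card_fin, Fintype.card_coe, ← pow_mul, ← hQ]

end Pool.Agent.H599.FF
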