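import Pool.Agent.H599.Tor

set_option autoImplicit false

/-!
# Words of length `p ^ k * L` in joint orbits, and the sharp upper bound for the dimension
-/

open Polynomial Finset

namespace Pool.Agent.H599.FF

variable {F : Type} [Field F]

theorem count2 (p : ℕ) [Fact p.Prime] [CharP F p] [Fintype F] (x : ℕ → F) (k m L : ℕ) (A : Fin m → F[X]) :
    {w : Fin (p ^ k * L) → F | ∃ e : Fin m → ℕ, w = fun i : Fin (p ^ k * L) => ml (∏ i, A i ^ e i) x i}.Finite ∧
    {w : Fin (p ^ k * L) → F | ∃ e : Fin m → ℕ, w = fun i : Fin (p ^ k * L) => ml (∏ i, A i ^ e i) x i}.ncard ≤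
      (p ^ k) ^ m * (Fintype.card F) ^ ((L + ∑ i, (A i).natDegree) * (decs (p ^ k) x).card) := by
  classical
  have hp : 0 < p := (Fact.out : p.Prime).pos
  obtain ⟨Q, hQ⟩ : ∃ Q, Q = p ^ k := ⟨_, rfl⟩
  have hQ0 : 0 < Q := by rw [hQ]; positivity
  set δ : ℕ := ∑ i, (A i).natDegree with hδ
  refine ⟨Set.toFinite _, ?_⟩
  -- the parametrization
  let vg : (↥(decs Q x) → Fin (L + δ) → F) → ℕ → F := fun g j =>
    if h : j / Q < L + δ then g ⟨dec Q (j % Q) x, dec_mem hQ0 x j⟩ ⟨j / Q, h⟩ else 0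
  let Φ : (Fin m → Fin Q) × (↥(decs Q x) → Fin (L + δ) → F) → (Fin (p ^ k * L) → F) := fun rg i =>
    ml (∏ i, A i ^ (rg.1 i : ℕ)) (vg rg.2) i
  have hsub : {w : Fin (p ^ k * L) → F | ∃ e : Fin m → ℕ, w = fun i : Fin (p ^ k * L) => ml (∏ i, A i ^ e i) x i} ⊆
      Set.range Φ := by
    rintro w ⟨e, rfl⟩
    refine ⟨(fun i => ⟨e i % Q, Nat.mod_lt _ hQ0⟩,
      fun s n => ml (map (iterateFrobenius F p k) (∏ i, A i ^ (e i / Q))) s n), ?_⟩
    funext i
    have hi : (i : ℕ) < Q * L := by rw [hQ]; exact i.2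
    have hB : (∏ i, A i ^ e i) = (∏ i, A i ^ (e i % Q)) * (∏ i, A i ^ (e i / Q)) ^ p ^ k := by
      rw [← Finset.prod_pow, ← Finset.prod_mul_distrib]
      refine Finset.prod_congr rfl fun i _ => ?_
      rw [← pow_mul, ← pow_add, ← hQ]
      congr 1
      rw [mul_comm]
      exact (Nat.mod_add_div _ _).symm
    show ml (∏ i, A i ^ (e i % Q)) _ i = _
    rw [hB, ml_mul]
    unfold ml
    refine Finset.sum_congr rfl fun a ha => ?_
    congr 1
    -- the value at `i + a`
    have hdeg : (∏ i, A i ^ (e i % Q)).natDegree ≤ (Q - 1) * δ :=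
      natDegree_le A (fun i => e i % Q) (fun i => by have := Nat.mod_lt (e i) hQ0; omega)
    have ha2 : a ≤ (Q - 1) * δ := by
      have := Finset.mem_range.1 ha
      omega
    have hlt : ((i : ℕ) + a) / Q < L + δ := by
      rw [Nat.div_lt_iff_lt_mul hQ0]
      have h1 : (Q - 1) * δ ≤ Q * δ := Nat.mul_le_mul_right _ (by omega)
      have h2 : (L + δ) * Q = Q * L + Q * δ := by ring
      omega
    show (if h : ((i : ℕ) + a) / Q < L + δ then _ else 0) = _
    rw [dif_pos hlt]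
    show ml (map (iterateFrobenius F p k) (∏ i, A i ^ (e i / Q))) (dec Q (((i : ℕ) + a) % Q) x) (((i : ℕ) + a) / Q) = _
    exact key (F := F) p k hQ _ x _
  refine (Set.ncard_le_ncard hsub (Set.toFinite _)).trans ?_
  have h3 : (Set.range Φ).ncard ≤ Nat.card ((Fin m → Fin Q) × (↥(decs Q x) → Fin (L + δ) → F)) := by
    rw [← Set.image_univ]
    refine (Set.ncard_image_le (Set.toFinite _)).trans ?_
    rw [Set.ncard_univ]
  refine h3.trans (le_of_eq ?_)
  rw [Nat.card_prod, Nat.card_eq_fintype_card, Nat.card_eq_fintype_card, Fintype.card_fun, Fintype.card_fun,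
    Fintype.card_fun, Fintype.card_fin, Fintype.card_fin, Fintype.card_fin, Fintype.card_coe, ← pow_mul, ← hQ]


end Pool.Agent.H599.FF

namespace Pool.Agent.H599.FF3

open Filter Topology

theorem numeric (q : ℝ) (hq : 1 < q) (Q N m δ : ℕ) (s : ℝ) (hs : (N : ℝ) < s * Q) :
    ∃ᶠ L : ℕ in atTop, ((Q : ℝ) ^ m * q ^ ((L + δ) * N)) * (q⁻¹ ^ (Q * L)) ^ s ≤ 1 := by
  have hq0 : 0 < q := by linarith
  have hlog : 0 < Real.log q := Real.log_pos hq
  set c : ℝ := (s * Q - N) * Real.log q with hc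
  have hc0 : 0 < c := mul_pos (by linarith) hlog
  have h1 : Tendsto (fun L : ℕ => ((Q : ℝ) ^ m * q ^ (δ * N)) * Real.exp (-(c * L))) atTop (𝓝 0) := by
    have h2 : Tendsto (fun L : ℕ => c * (L : ℝ)) atTop atTop :=
      tendsto_natCast_atTop_atTop.const_mul_atTop hc0
    have h3 := (Real.tendsto_exp_neg_atTop_nhds_zero.comp h2).const_mul ((Q : ℝ) ^ m * q ^ (δ * N))
    rw [mul_zero] at h3
    exact h3
  have h2 := h1.eventually (ge_mem_nhds (by norm_num : (0:ℝ) < 1))
  refine (h2.mono fun L hL => le_trans (le_of_eq ?_) hL).frequently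
  have e1 : q ^ (L * N) = Real.exp (Real.log q * ((L : ℝ) * N)) := by
    rw [← Real.rpow_natCast, Real.rpow_def_of_pos hq0]
    push_cast
    ring_nf
  have e2 : (q⁻¹ ^ (Q * L)) ^ s = Real.exp (-(Real.log q) * ((Q : ℝ) * L * s)) := by
    rw [← Real.rpow_natCast, ← Real.rpow_mul (by positivity), Real.rpow_def_of_pos (by positivity), Real.log_inv]
    push_cast
    ring_nf
  have e3 : q ^ ((L + δ) * N) = q ^ (δ * N) * q ^ (L * N) := by
    rw [← pow_add]
    ring_nf
  rw [e3, e1, e2]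
  have e4 : Real.exp (-(c * L)) = Real.exp (Real.log q * ((L : ℝ) * N)) * Real.exp (-(Real.log q) * ((Q : ℝ) * L * s)) := by
    rw [← Real.exp_add]
    congr 1
    rw [hc]
    ring
  rw [e4]
  ring

end Pool.Agent.H599.FF3
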