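import Pool.Agent.H599.UP
import Pool.Agent.H599.SP.Stm

set_option autoImplicit false

/-!
# The spectrum of the dimensions: assembly
-/

open Polynomial Filter Topology
open scoped ENNReal NNReal
open Pool.Agent.H599.Tor Pool.Agent.H599.UP Pool.Agent.H599.SP

namespace Pool.Agent.H599.FIN

theorem spectrum (hLB : S_LB) (hGEN : S_GEN) (hCMP : S_CMP) (hKS : S_KS) (hRAT : S_RAT)
    (F : Type) [Field F] [Fintype F] (p : ℕ) [Fact p.Prime] [CharP F p] (α : ℝ) (h0 : 0 ≤ α) (h1 : α ≤ 1) :
    ∃ x : Torus F, Irrational x ∧ ∀ (m : ℕ) (A : Fin m → F[X]), (∃ i, 1 ≤ (A i).natDegree) →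
      dimH (closure (orbit A x)) = ENNReal.ofReal α := by
  classical
  have hp : 2 ≤ p := (Fact.out : p.Prime).two_le
  rcases eq_or_lt_of_le h0 with rfl | hα
  · -- the lacunary element
    refine ⟨lacunary p (fun _ => 1), ?_, fun m A _ => ?_⟩
    · rw [lac_irrational p hp]
      exact Filter.Frequently.of_forall fun _ => one_ne_zero
    · rw [lac_dim, ENNReal.ofReal_zero]
  obtain ⟨K, hK⟩ := hKS p hp α h0 h1
  obtain ⟨x, hx1, hx2⟩ := hGEN F p K
  have hdim : ∀ (m : ℕ) (A : Fin m → F[X]), (∃ i, 1 ≤ (A i).natDegree) →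
      dimH (closure (orbit A (⟨x⟩ : Torus F))) = ENNReal.ofReal α := by
    intro m A ⟨i, hi⟩
    apply le_antisymm
    · -- upper bound
      apply dim_limit p _ m A α 2
      intro k
      have hQ : 0 < p ^ k := by positivity
      have hsub : {y : ℕ → F | ∃ r < p ^ k, y = fun n => (⟨x⟩ : Torus F).digit (p ^ k * n + r)} ⊆
          insert (fun _ => 0) ((fun r : ℕ => fun n : ℕ => x (p ^ k * n + r)) ''
            {r : ℕ | r < p ^ k ∧ ∃ l, p ^ k * l + r ∈ K}) := by
        rintro y ⟨r, hr, rfl⟩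
        by_cases h : ∃ l, p ^ k * l + r ∈ K
        · exact Set.mem_insert_of_mem _ ⟨r, ⟨hr, h⟩, rfl⟩
        · push Not at h
          have e : (fun n => (⟨x⟩ : Torus F).digit (p ^ k * n + r)) = fun _ => 0 := by
            funext n
            exact hx1 _ (h n)
          rw [e]
          exact Set.mem_insert _ _
      have hfin : {r : ℕ | r < p ^ k ∧ ∃ l, p ^ k * l + r ∈ K}.Finite :=
        (Set.finite_lt_nat (p ^ k)).subset fun r hr => hr.1
      have h2 : decimations (⟨x⟩ : Torus F) (p ^ k) ≤ {r : ℕ | r < p ^ k ∧ ∃ l, p ^ k * l + r ∈ K}.ncard + 1 := by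
        unfold decimations
        refine (Set.ncard_le_ncard hsub ((hfin.image _).insert _)).trans ?_
        refine (Set.ncard_insert_le _ _).trans ?_
        exact Nat.add_le_add_right (Set.ncard_image_le hfin) 1
      have h3 := (hK k).1
      have h4 : (decimations (⟨x⟩ : Torus F) (p ^ k) : ℝ) ≤
          ({r : ℕ | r < p ^ k ∧ ∃ l, p ^ k * l + r ∈ K}.ncard : ℝ) + 1 := by exact_mod_cast h2
      linarith
    · -- lower bound
      have hlow : ∀ k : ℕ, ENNReal.ofReal (α - ((p : ℝ) ^ k)⁻¹) ≤ dimH (closure (orbit A (⟨x⟩ : Torus F))) := by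
        intro k
        have hpk : (0:ℝ) < (p : ℝ) ^ k := by positivity
        have hQ : 0 < p ^ k := by positivity
        set R : Finset ℕ := (Finset.range (p ^ k)).filter (fun r => ∀ l, p ^ k * l + r ∈ K) with hR
        have hRc : (R.card : ℝ) = ({r : ℕ | r < p ^ k ∧ ∀ l, p ^ k * l + r ∈ K}.ncard : ℝ) := by
          have e : {r : ℕ | r < p ^ k ∧ ∀ l, p ^ k * l + r ∈ K} = (R : Set ℕ) := by
            ext r
            rw [hR]
            simp
          rw [e, Set.ncard_coe_finset]
        have h2 := hCMP F (orbit A (⟨x⟩ : Torus F)) (p ^ k) R hQ (by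
          intro L w
          obtain ⟨e, he⟩ := hx2 k (A i) hi L w
          refine ⟨_, ⟨Pi.single i e, rfl⟩, fun n hn hnR => ?_⟩
          have hprod : (∏ j, A j ^ (Pi.single i e : Fin m → ℕ) j) = A i ^ e := by
            rw [Finset.prod_eq_single i]
            · rw [Pi.single_eq_same]
            · intro j _ hj
              rw [Pi.single_eq_of_ne hj, pow_zero]
            · intro h
              exact absurd (Finset.mem_univ i) h
          show (mul (∏ j, A j ^ (Pi.single i e : Fin m → ℕ) j) (⟨x⟩ : Torus F)).digit n = w n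
          rw [hprod, mul_digit]
          apply he n hn
          rw [hR] at hnR
          exact (Finset.mem_filter.1 hnR).2)
        have h3 := hLB F (p ^ k) R hQ (fun r hr => Finset.mem_range.1 (Finset.mem_filter.1 hr).1)
        refine le_trans ?_ (h3.trans h2)
        have h4 : ((R.card : ℝ≥0∞) / ((p ^ k : ℕ) : ℝ≥0∞)) = ENNReal.ofReal ((R.card : ℝ) / (p : ℝ) ^ k) := by
          rw [ENNReal.ofReal_div_of_pos hpk, ENNReal.ofReal_natCast]
          congr 1
          rw [← Nat.cast_pow, ENNReal.ofReal_natCast]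
        rw [h4]
        apply ENNReal.ofReal_le_ofReal
        rw [le_div_iff₀ hpk, sub_mul, inv_mul_cancel₀ hpk.ne', hRc]
        exact (hK k).2
      have h2 : Tendsto (fun k : ℕ => ENNReal.ofReal (α - ((p : ℝ) ^ k)⁻¹)) atTop (𝓝 (ENNReal.ofReal (α - 0))) := by
        apply ENNReal.tendsto_ofReal
        apply Tendsto.const_sub
        exact (tendsto_pow_atTop_atTop_of_one_lt (by exact_mod_cast (by omega : 1 < p))).inv_tendsto_atTop
      have h3 := le_of_tendsto' h2 hlow
      rwa [sub_zero] at h3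
  refine ⟨⟨x⟩, ?_, hdim⟩
  intro B hB
  by_contra hcon
  push Not at hcon
  have h2 := hRAT F ⟨x⟩ B hB hcon 1 (fun _ => X)
  rw [hdim 1 (fun _ => X) ⟨0, by rw [natDegree_X]⟩] at h2
  rw [ENNReal.ofReal_eq_zero] at h2
  linarith

end Pool.Agent.H599.FIN
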