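import Pool.Agent.H599.FF2
import Pool.Agent.H599.FF3
import Pool.Agent.H599.CH.T0
import Pool.Agent.H599.CH.T1
import Pool.Agent.H599.CH.T2

set_option autoImplicit false

/-!
# The sharp upper bound for the dimension of joint orbits, algebraic and lacunary elements
-/

open Polynomial Filter Topology
open scoped ENNReal NNReal
open Pool.Agent.H599.Tor

namespace Pool.Agent.H599.UP

variable {F : Type} [Field F]

omit [Field F] in
lemma dec_card (x : Torus F) (Q : ℕ) : (Pool.Agent.H599.FF.decs Q x.digit).card = decimations x Q := by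
  classical
  unfold decimations
  have h : {y : ℕ → F | ∃ r < Q, y = fun n => x.digit (Q * n + r)} =
      ((Pool.Agent.H599.FF.decs Q x.digit : Finset (ℕ → F)) : Set (ℕ → F)) := by
    ext y
    unfold Pool.Agent.H599.FF.decs Pool.Agent.H599.FF.dec
    simp only [Set.mem_ofPred_eq, Finset.coe_image, Set.mem_image, Finset.coe_range, Set.mem_Iio]
    exact ⟨fun ⟨r, h1, h2⟩ => ⟨r, h1, h2.symm⟩, fun ⟨r, h1, h2⟩ => ⟨r, h1, h2.symm⟩⟩
  rw [h, Set.ncard_coe_finset]

variable [Fintype F]

lemma words_closure (L : ℕ) (E : Set (Torus F)) : words L (closure E) = words L E := by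
  apply Set.Subset.antisymm
  · rintro w ⟨y, hy, hw⟩
    have hq : (1 : ℝ) < Fintype.card F := by exact_mod_cast Fintype.one_lt_card
    have hpos : (0:ℝ) < ((Fintype.card F : ℝ)⁻¹) ^ (L + 1) := by positivity
    obtain ⟨z, hz, hyz⟩ := Metric.mem_closure_iff.1 hy _ hpos
    have h1 := (distance_le y z L).1 hyz.le
    exact ⟨z, hz, fun i => (hw i).trans (h1 i i.2)⟩
  · rintro w ⟨y, hy, hw⟩
    exact ⟨y, subset_closure hy, hw⟩

theorem words_bound (p : ℕ) [Fact p.Prime] [CharP F p] (x : Torus F) (m : ℕ) (A : Fin m → F[X]) (k L : ℕ) :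
    (words (p ^ k * L) (closure (orbit A x))).ncard ≤
      (p ^ k) ^ m * Fintype.card F ^ ((L + ∑ i, (A i).natDegree) * decimations x (p ^ k)) := by
  rw [words_closure, ← dec_card]
  refine le_trans (le_of_eq ?_) (Pool.Agent.H599.FF.count2 p x.digit k m L A).2
  congr 1
  ext w
  constructor
  · rintro ⟨y, ⟨e, rfl⟩, hw⟩
    exact ⟨e, funext fun i => hw i⟩
  · rintro ⟨e, he⟩
    exact ⟨_, ⟨e, rfl⟩, fun i => congrFun he i⟩

/-- the upper bound -/
theorem dim_upper (p : ℕ) [Fact p.Prime] [CharP F p] (x : Torus F) (m : ℕ) (A : Fin m → F[X]) (k : ℕ) :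
    dimH (closure (orbit A x)) ≤ (decimations x (p ^ k) : ℝ≥0∞) / ((p ^ k : ℕ) : ℝ≥0∞) := by
  classical
  have hq : (1 : ℝ) < Fintype.card F := by exact_mod_cast Fintype.one_lt_card
  have hp : 2 ≤ p := (Fact.out : p.Prime).two_le
  have hQ : 0 < p ^ k := by positivity
  apply le_of_forall_gt_imp_ge_of_dense
  intro s' hs'
  rcases eq_or_ne s' ⊤ with rfl | hne
  · exact le_top
  lift s' to ℝ≥0 using hne
  have hs : (decimations x (p ^ k) : ℝ) < s' * (p ^ k : ℕ) := by
    have h0 : ((p ^ k : ℕ) : ℝ≥0∞) ≠ 0 := by exact_mod_cast hQ.ne'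
    rw [ENNReal.div_lt_iff (Or.inl h0) (Or.inl (ENNReal.natCast_ne_top _))] at hs'
    exact_mod_cast hs'
  have hnum := Pool.Agent.H599.FF3.numeric (Fintype.card F : ℝ) hq (p ^ k) (decimations x (p ^ k)) m
    (∑ i, (A i).natDegree) s' hs
  have hL : Tendsto (fun L : ℕ => p ^ k * L) atTop atTop := tendsto_id.const_mul_atTop' hQ
  refine Pool.Agent.H599.FF2.dimH_le_of_covers (closure (orbit A x)) (Fintype.card F : ℝ) hq s'
    (fun L => Nat.card (words (p ^ k * L) (closure (orbit A x)))) (fun L => p ^ k * L) hL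
    (fun L i => {y : Torus F | ∀ j : Fin (p ^ k * L), y.digit j =
      ((Finite.equivFin (words (p ^ k * L) (closure (orbit A x)))).symm i : Fin (p ^ k * L) → F) j}) ?_ ?_ ?_
  · intro L i
    apply Metric.ediam_le
    intro y hy z hz
    rw [edist_dist]
    apply ENNReal.ofReal_le_ofReal
    have h1 : distance y z ≤ ((Fintype.card F : ℝ)⁻¹) ^ (p ^ k * L + 1) :=
      (distance_le y z (p ^ k * L)).2 fun n hn => (hy ⟨n, hn⟩).trans (hz ⟨n, hn⟩).symm
    refine h1.trans ?_
    exact pow_le_pow_of_le_one (by positivity) (inv_lt_one_of_one_lt₀ hq).le (Nat.le_succ _)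
  · intro L y hy
    refine Set.mem_iUnion.2 ⟨Finite.equivFin (words (p ^ k * L) (closure (orbit A x)))
      ⟨fun j => y.digit j, ⟨y, hy, fun _ => rfl⟩⟩, ?_⟩
    intro j
    rw [Equiv.symm_apply_apply]
  · refine hnum.mono fun L hL => le_trans ?_ hL
    apply mul_le_mul_of_nonneg_right _ (by positivity)
    rw [Nat.card_coe_set_eq]
    exact_mod_cast words_bound p x m A k L

/-- bounded number of decimations along a subsequence -/
theorem dim_zero (p : ℕ) [Fact p.Prime] [CharP F p] (x : Torus F) (m : ℕ) (A : Fin m → F[X]) (N : ℕ)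
    (h : ∃ᶠ k in atTop, decimations x (p ^ k) ≤ N) : dimH (closure (orbit A x)) = 0 := by
  have hp : 2 ≤ p := (Fact.out : p.Prime).two_le
  refine le_antisymm ?_ bot_le
  have h2 : Tendsto (fun k : ℕ => p ^ k) atTop atTop := tendsto_pow_atTop_atTop_of_one_lt (by omega)
  have h1 : Tendsto (fun k : ℕ => (N : ℝ≥0∞) / ((p ^ k : ℕ) : ℝ≥0∞)) atTop (𝓝 ((N : ℝ≥0∞) / ⊤)) :=
    ENNReal.Tendsto.const_div (ENNReal.tendsto_nat_nhds_top.comp h2) (Or.inr (ENNReal.natCast_ne_top _))
  rw [ENNReal.div_top] at h1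
  apply le_of_forall_gt_imp_ge_of_dense
  intro s' hs'
  have h3 := h1.eventually (gt_mem_nhds hs')
  obtain ⟨k, hk1, hk2⟩ := (h.and_eventually h3).exists
  refine (dim_upper p x m A k).trans (le_trans ?_ hk2.le)
  exact ENNReal.div_le_div_right (by exact_mod_cast hk1) _

omit [Field F] [Fintype F] in
lemma decimations_le (x : Torus F) (Q : ℕ) : decimations x Q ≤ Q := by
  classical
  have h : {y : ℕ → F | ∃ r < Q, y = fun n => x.digit (Q * n + r)} =
      (((Finset.range Q).image (fun r => fun n => x.digit (Q * n + r)) : Finset (ℕ → F)) : Set (ℕ → F)) := by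
    ext y
    simp only [Set.mem_ofPred_eq, Finset.coe_image, Set.mem_image, Finset.coe_range, Set.mem_Iio]
    exact ⟨fun ⟨r, h1, h2⟩ => ⟨r, h1, h2.symm⟩, fun ⟨r, h1, h2⟩ => ⟨r, h1, h2.symm⟩⟩
  unfold decimations
  rw [h, Set.ncard_coe_finset]
  exact Finset.card_image_le.trans (by simp)


/-- the limit version -/
theorem dim_limit (p : ℕ) [Fact p.Prime] [CharP F p] (x : Torus F) (m : ℕ) (A : Fin m → F[X]) (a c : ℝ)
    (h : ∀ k, (decimations x (p ^ k) : ℝ) ≤ a * (p : ℝ) ^ k + c) :
    dimH (closure (orbit A x)) ≤ ENNReal.ofReal a := by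
  have hp : 2 ≤ p := (Fact.out : p.Prime).two_le
  have h1 : ∀ k : ℕ, dimH (closure (orbit A x)) ≤ ENNReal.ofReal (a + c * ((p : ℝ) ^ k)⁻¹) := by
    intro k
    have hpk : (0:ℝ) < (p : ℝ) ^ k := by positivity
    refine (dim_upper p x m A k).trans ?_
    have h2 : (decimations x (p ^ k) : ℝ≥0∞) / ((p ^ k : ℕ) : ℝ≥0∞) =
        ENNReal.ofReal ((decimations x (p ^ k) : ℝ) / (p : ℝ) ^ k) := by
      rw [ENNReal.ofReal_div_of_pos hpk, ENNReal.ofReal_natCast]
      congr 1
      rw [← Nat.cast_pow, ENNReal.ofReal_natCast]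
    rw [h2]
    apply ENNReal.ofReal_le_ofReal
    rw [div_le_iff₀ hpk, add_mul, mul_assoc, inv_mul_cancel₀ hpk.ne', mul_one]
    exact h k
  have h2 : Tendsto (fun k : ℕ => ENNReal.ofReal (a + c * ((p : ℝ) ^ k)⁻¹)) atTop (𝓝 (ENNReal.ofReal (a + c * 0))) := by
    apply ENNReal.tendsto_ofReal
    apply Tendsto.const_add
    apply Tendsto.const_mul
    exact (tendsto_pow_atTop_atTop_of_one_lt (by exact_mod_cast (by omega : 1 < p))).inv_tendsto_atTop
  have h3 := ge_of_tendsto' h2 h1
  rwa [mul_zero, add_zero] at h3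

omit [Fintype F] in
lemma La_mk (q r : ℕ) (g : ℕ → F) : CH.La q r (PowerSeries.mk g) = PowerSeries.mk (FF.dec q r g) := by
  unfold CH.La FF.dec
  ext n
  rw [PowerSeries.coeff_mk, PowerSeries.coeff_mk, PowerSeries.coeff_mk]

/-- algebraic elements have boundedly many decimations -/
theorem alg_decimations (x : Torus F) (hx : IsAlgebraic F[X] (PowerSeries.mk x.digit)) :
    ∃ N : ℕ, ∀ k : ℕ, decimations x (Fintype.card F ^ k) ≤ N := by
  classical
  obtain ⟨d, c, hc, hrel⟩ := CH.t_T1 CH.t_T0a CH.t_T0b CH.t_T0c F (PowerSeries.mk x.digit) hx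
  obtain ⟨S, hS, hxS, hcl⟩ := CH.t_T2 CH.t_T0b CH.t_T0c F (PowerSeries.mk x.digit) d c hc hrel
  have hq : 0 < Fintype.card F := Fintype.card_pos
  have hmem : ∀ k r : ℕ, r < Fintype.card F ^ k →
      PowerSeries.mk (FF.dec (Fintype.card F ^ k) r x.digit) ∈ S := by
    intro k
    induction k with
    | zero =>
      intro r hr
      have hr0 : r = 0 := by simpa using hr
      subst hr0
      have e : FF.dec (Fintype.card F ^ 0) 0 x.digit = x.digit := by
        funext n
        unfold FF.dec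
        simp
      rw [e]
      exact hxS
    | succ k ih =>
      intro r hr
      have h1 : r % Fintype.card F ^ k < Fintype.card F ^ k := Nat.mod_lt _ (by positivity)
      have h2 : r / Fintype.card F ^ k < Fintype.card F := by
        rw [Nat.div_lt_iff_lt_mul (by positivity)]
        rwa [pow_succ, mul_comm] at hr
      have h3 := hcl _ (ih _ h1) _ h2
      rw [La_mk] at h3
      have e : FF.dec (Fintype.card F) (r / Fintype.card F ^ k)
          (FF.dec (Fintype.card F ^ k) (r % Fintype.card F ^ k) x.digit) =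
          FF.dec (Fintype.card F ^ (k + 1)) r x.digit := by
        funext n
        unfold FF.dec
        congr 1
        have := Nat.div_add_mod r (Fintype.card F ^ k)
        rw [pow_succ]
        nlinarith
      rwa [e] at h3
  refine ⟨S.ncard, fun k => ?_⟩
  have h1 : {y : ℕ → F | ∃ r < Fintype.card F ^ k, y = fun n => x.digit (Fintype.card F ^ k * n + r)} ⊆
      (fun f : PowerSeries F => fun n => PowerSeries.coeff n f) '' S := by
    rintro y ⟨r, hr, rfl⟩
    refine ⟨_, hmem k r hr, ?_⟩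
    funext n
    simp only [PowerSeries.coeff_mk]
    rfl
  unfold decimations
  exact (Set.ncard_le_ncard h1 (hS.image _)).trans (Set.ncard_image_le hS)

theorem alg_dim (p : ℕ) [Fact p.Prime] [CharP F p] (x : Torus F) (hx : IsAlgebraic F[X] (PowerSeries.mk x.digit))
    (m : ℕ) (A : Fin m → F[X]) : dimH (closure (orbit A x)) = 0 := by
  obtain ⟨N, hN⟩ := alg_decimations x hx
  apply dim_zero p x m A N
  obtain ⟨n, hn1, hn2⟩ := FiniteField.card F p
  rw [Filter.frequently_atTop]
  intro a
  refine ⟨(n : ℕ) * a, Nat.le_mul_of_pos_left a n.pos, ?_⟩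
  have h1 := hN a
  rwa [hn2, ← pow_mul] at h1

omit [Field F] [Fintype F] in
lemma pow_sub_add (p j : ℕ) (hp : 0 < p) : p ^ j - 1 + 1 = p ^ j := Nat.sub_add_cancel (Nat.one_le_pow _ _ hp)

omit [Fintype F] in
lemma lac_pow (p : ℕ) (hp : 2 ≤ p) (ε : ℕ → F) (j : ℕ) : (lacunary p ε).digit (p ^ j - 1) = ε j := by
  unfold lacunary
  simp only
  rw [pow_sub_add p j (by omega), Nat.log_pow (by omega), if_pos rfl]

omit [Fintype F] in
lemma lac_zero (p : ℕ) (ε : ℕ → F) (n : ℕ) (h : ∀ j, n + 1 ≠ p ^ j) : (lacunary p ε).digit n = 0 := by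
  unfold lacunary
  simp only
  rw [if_neg (h _)]

theorem lac_decimations (p : ℕ) (hp : 2 ≤ p) (ε : ℕ → F) (k : ℕ) :
    decimations (lacunary p ε) (p ^ k) ≤ Fintype.card F + 1 := by
  classical
  have hsub : {y : ℕ → F | ∃ r < p ^ k, y = fun n => (lacunary p ε).digit (p ^ k * n + r)} ⊆
      insert (fun n => (lacunary p ε).digit (p ^ k * n + (p ^ k - 1)))
        ((fun c : F => fun n : ℕ => if n = 0 then c else 0) '' Set.univ) := by
    rintro y ⟨r, hr, rfl⟩
    rcases eq_or_ne r (p ^ k - 1) with rfl | hne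
    · exact Set.mem_insert _ _
    · refine Set.mem_insert_of_mem _ ⟨(lacunary p ε).digit r, Set.mem_univ _, ?_⟩
      funext n
      rcases eq_or_ne n 0 with rfl | hn
      · simp
      · show (if n = 0 then (lacunary p ε).digit r else (0 : F)) = _
        rw [if_neg hn, lac_zero]
        intro j hj
        have h1 : p ^ k < p ^ j := by
          rw [← hj]
          have : p ^ k * 1 ≤ p ^ k * n := Nat.mul_le_mul_left _ (by omega)
          omega
        have h2 : k < j := (Nat.pow_lt_pow_iff_right (by omega)).1 h1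
        have h3 : p ^ k ∣ p ^ k * n + r + 1 := by
          rw [hj]
          exact pow_dvd_pow _ h2.le
        have h4 : p ^ k ∣ r + 1 := by
          rw [add_assoc] at h3
          exact (Nat.dvd_add_right (Dvd.intro _ rfl)).1 h3
        have h5 := Nat.le_of_dvd (by omega) h4
        omega
  unfold decimations
  refine (Set.ncard_le_ncard hsub (Set.toFinite _)).trans ?_
  refine (Set.ncard_insert_le _ _).trans ?_
  have h1 := Set.ncard_image_le (f := fun c : F => fun n : ℕ => if n = 0 then c else 0) (Set.toFinite (Set.univ : Set F))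
  rw [Set.ncard_univ, Nat.card_eq_fintype_card] at h1
  omega

omit [Fintype F] in
theorem lac_irrational (p : ℕ) (hp : 2 ≤ p) (ε : ℕ → F) :
    Irrational (lacunary p ε) ↔ ∃ᶠ j in atTop, ε j ≠ 0 := by
  constructor
  · intro h
    by_contra h1
    rw [Filter.not_frequently, Filter.eventually_atTop] at h1
    obtain ⟨J, hJ⟩ := h1
    obtain ⟨n, hn⟩ := h (X ^ (p ^ J)) (pow_ne_zero _ X_ne_zero)
    apply hn
    rw [mul_digit, Pool.Agent.H599.FF.ml_eq, map_pow, aeval_X, Pool.Agent.H599.FF.sh_pow]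
    by_cases h2 : ∃ j, n + p ^ J + 1 = p ^ j
    · obtain ⟨j, hj⟩ := h2
      have h3 : p ^ J < p ^ j := by omega
      have h4 : J < j := (Nat.pow_lt_pow_iff_right (by omega)).1 h3
      have h5 : n + p ^ J = p ^ j - 1 := by omega
      rw [h5, lac_pow p hp]
      have := hJ j h4.le
      push Not at this
      exact this
    · push Not at h2
      exact lac_zero p ε _ h2
  · intro h B hB
    obtain ⟨j, hj1, hj2⟩ := (Filter.frequently_atTop.1 h) (B.natDegree + 1)
    have hlt : B.natDegree + 1 < p ^ (B.natDegree + 1) := Nat.lt_pow_self (by omega)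
    have hjj : p ^ (B.natDegree + 1) ≤ p ^ j := Nat.pow_le_pow_right (by omega) hj1
    have hprev : p ^ (j - 1) + B.natDegree < p ^ j := by
      obtain ⟨i, rfl⟩ : ∃ i, j = i + 1 := ⟨j - 1, by omega⟩
      have h1 : B.natDegree < p ^ i := by
        have h2 : B.natDegree ≤ i := by omega
        exact lt_of_le_of_lt h2 (Nat.lt_pow_self (by omega))
      rw [pow_succ, Nat.add_sub_cancel]
      nlinarith
    refine ⟨p ^ j - 1 - B.natDegree, ?_⟩
    rw [mul_digit]
    unfold Pool.Agent.H599.FF.ml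
    rw [Finset.sum_eq_single B.natDegree]
    · have h2 : p ^ j - 1 - B.natDegree + B.natDegree = p ^ j - 1 := by omega
      rw [h2, lac_pow p hp]
      exact mul_ne_zero (by rwa [coeff_natDegree, Ne, leadingCoeff_eq_zero]) hj2
    · intro i hi hne
      have hi1 := Finset.mem_range.1 hi
      rw [lac_zero, mul_zero]
      intro l hl
      have h3 : p ^ l < p ^ j := by omega
      have h4 : l < j := (Nat.pow_lt_pow_iff_right (by omega)).1 h3
      have h5 : p ^ l ≤ p ^ (j - 1) := Nat.pow_le_pow_right (by omega) (by omega)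
      omega
    · intro h3
      exact absurd (Finset.mem_range.2 (by omega)) h3

omit [Fintype F] in
theorem lac_injective (p : ℕ) (hp : 2 ≤ p) : Function.Injective (lacunary (F := F) p) := by
  intro ε ε' h
  funext j
  rw [← lac_pow p hp ε j, ← lac_pow p hp ε' j, h]


/-- the lacunary elements -/
theorem lac_dim (p : ℕ) [Fact p.Prime] [CharP F p] (ε : ℕ → F) (m : ℕ) (A : Fin m → F[X]) :
    dimH (closure (orbit A (lacunary p ε))) = 0 :=
  dim_zero p _ m A (Fintype.card F + 1) (Filter.Frequently.of_forall fun k =>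
    lac_decimations p (Fact.out : p.Prime).two_le ε k)

end Pool.Agent.H599.UP
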