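import Pool.Agent.H599.RKDef
import Pool.Agent.H599.UP
import Pool.Agent.H599.EX.YW

set_option autoImplicit false

/-!
# The upper bound for the dimension of joint orbits by the rank of the decimations over `F(t)`
-/

open Polynomial Filter Topology
open scoped ENNReal NNReal
open Pool.Agent.H599.Tor

namespace Pool.Agent.H599.RK

open Pool.Agent.H599.FF Pool.Agent.H599.EX.YWaux

section gen

lemma ncard_range_le {α β γ : Type} [Finite γ] (f : α → β) (g : α → γ)
    (h : ∀ a b, g a = g b → f a = f b) : (Set.range f).ncard ≤ Nat.card γ := by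
  classical
  rcases isEmpty_or_nonempty α with hα | ⟨⟨a₀⟩⟩
  · rw [Set.range_eq_empty, Set.ncard_empty]
    exact Nat.zero_le _
  let h' : γ → β := fun c => if hc : ∃ a, g a = c then f hc.choose else f a₀
  have hsub : Set.range f ⊆ Set.range h' := by
    rintro _ ⟨a, rfl⟩
    refine ⟨g a, ?_⟩
    have hc : ∃ b, g b = g a := ⟨a, rfl⟩
    show (if hc : ∃ b, g b = g a then f hc.choose else f a₀) = f a
    rw [dif_pos hc]
    exact h _ _ hc.choose_spec
  refine (Set.ncard_le_ncard hsub (Set.finite_range _)).trans ?_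
  rw [← Set.image_univ]
  refine (Set.ncard_image_le (Set.toFinite _)).trans ?_
  rw [Set.ncard_univ]

theorem numeric (q : ℝ) (hq : 1 < q) (C : ℝ) (Q N δ : ℕ) (s : ℝ) (hs : (N : ℝ) < s * Q) :
    ∃ᶠ L : ℕ in atTop, (C * q ^ ((L + δ) * N)) * (q⁻¹ ^ (Q * L)) ^ s ≤ 1 := by
  have hq0 : 0 < q := by linarith
  have hlog : 0 < Real.log q := Real.log_pos hq
  set c : ℝ := (s * Q - N) * Real.log q with hc
  have hc0 : 0 < c := mul_pos (by linarith) hlog
  have h1 : Tendsto (fun L : ℕ => (C * q ^ (δ * N)) * Real.exp (-(c * L))) atTop (𝓝 0) := by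
    have h2 : Tendsto (fun L : ℕ => c * (L : ℝ)) atTop atTop :=
      tendsto_natCast_atTop_atTop.const_mul_atTop hc0
    have h3 := (Real.tendsto_exp_neg_atTop_nhds_zero.comp h2).const_mul (C * q ^ (δ * N))
    rw [mul_zero] at h3
    exact h3
  have h2 := h1.eventually (ge_mem_nhds (by norm_num : (0:ℝ) < 1))
  refine (h2.mono fun L hL => le_trans (le_of_eq ?_) hL).frequently
  have e1 : q ^ (L * N) = Real.exp (Real.log q * ((L : ℝ) * N)) := by
    rw [← Real.rpow_natCast, Real.rpow_def_of_pos hq0]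
    push_cast
    ring_nf
  have e2 : (q⁻¹ ^ (Q * L)) ^ s = Real.exp (-(Real.log q) * ((Q : ℝ) * L * s)) := by
    rw [← Real.rpow_natCast, ← Real.rpow_mul (by positivity), Real.rpow_def_of_pos (by positivity), Real.log_inv]
    push_cast
    ring_nf
  have e3 : q ^ ((L + δ) * N) = q ^ (δ * N) * q ^ (L * N) := by
    rw [← pow_add]
    ring_nf
  rw [e3, e1, e2]
  have e4 : Real.exp (-(c * L)) = Real.exp (Real.log q * ((L : ℝ) * N)) * Real.exp (-(Real.log q) * ((Q : ℝ) * L * s)) := by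
    rw [← Real.exp_add]
    congr 1
    rw [hc]
    ring
  rw [e4]
  ring

end gen

variable {F : Type} [Field F]

lemma ml_comm (A B : F[X]) (x : ℕ → F) : ml A (ml B x) = ml B (ml A x) := by
  rw [← ml_mul, mul_comm, ml_mul]

lemma ml_sum {ι : Type} (s : Finset ι) (A : F[X]) (x : ι → ℕ → F) : ml A (∑ i ∈ s, x i) = ∑ i ∈ s, ml A (x i) := by
  rw [ml_eq, map_sum]
  refine Finset.sum_congr rfl fun i _ => ?_
  rw [ml_eq]

/-- agreement in the first places -/
lemma ml_congr (A : F[X]) (D M : ℕ) (hD : A.natDegree ≤ D) (x y : ℕ → F) (h : ∀ n < M + D, x n = y n) :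
    ∀ n < M, ml A x n = ml A y n := by
  intro n hn
  unfold ml
  refine Finset.sum_congr rfl fun i hi => ?_
  rw [h (n + i) (by have := Finset.mem_range.1 hi; omega)]

/-- the words of the joint orbit -/
theorem count4 (p : ℕ) [Fact p.Prime] [CharP F p] [Fintype F] (x : ℕ → F) (k m R : ℕ) (A : Fin m → F[X])
    (y : Fin R → ℕ → F) (c : F[X]) (hc : c ≠ 0) (d : Fin (p ^ k) → Fin R → F[X])
    (hd : ∀ r : Fin (p ^ k), ml c (dec (p ^ k) r x) = ∑ i, ml (d r i) (y i)) : ∃ D : ℕ, ∀ L : ℕ,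
    {w : Fin (p ^ k * L) → F | ∃ e : Fin m → ℕ, w = fun i : Fin (p ^ k * L) => ml (∏ i, A i ^ e i) x i}.ncard ≤
      (p ^ k) ^ m * (Fintype.card F) ^ (p ^ k * c.natDegree) * (Fintype.card F) ^ ((L + D) * R) := by
  classical
  have hp : 0 < p := (Fact.out : p.Prime).pos
  have hQ0 : 0 < p ^ k := by positivity
  obtain ⟨δ, hδ⟩ : ∃ δ : ℕ, δ = ∑ i, (A i).natDegree := ⟨_, rfl⟩
  obtain ⟨E, hE⟩ : ∃ E : ℕ, ∀ r i, (d r i).natDegree ≤ E :=
    ⟨∑ r, ∑ i, (d r i).natDegree, fun r i => (Finset.single_le_sum (f := fun i => (d r i).natDegree)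
      (fun _ _ => Nat.zero_le _) (Finset.mem_univ i)).trans (Finset.single_le_sum
        (f := fun r => ∑ i, (d r i).natDegree) (fun _ _ => Nat.zero_le _) (Finset.mem_univ r))⟩
  refine ⟨δ + E, fun L => ?_⟩
  let B : (Fin m → ℕ) → F[X] := fun e => map (iterateFrobenius F p k) (∏ i, A i ^ (e i / p ^ k))
  let f : (Fin m → ℕ) → (Fin (p ^ k * L) → F) := fun e => fun i : Fin (p ^ k * L) => ml (∏ i, A i ^ e i) x i
  let g : (Fin m → ℕ) → (Fin m → Fin (p ^ k)) × (Fin (p ^ k) → Fin c.natDegree → F) ×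
      (Fin R → Fin (L + (δ + E)) → F) := fun e =>
    (fun i => ⟨e i % p ^ k, Nat.mod_lt _ hQ0⟩, fun r n => ml (B e) (dec (p ^ k) r x) n,
      fun i n => ml (B e) (y i) n)
  have hfg : ∀ e e', g e = g e' → f e = f e' := by
    intro e e' hee
    have h1 : (fun i => (⟨e i % p ^ k, Nat.mod_lt _ hQ0⟩ : Fin (p ^ k))) =
        fun i => ⟨e' i % p ^ k, Nat.mod_lt _ hQ0⟩ := congrArg Prod.fst hee
    have h2 : (fun (r : Fin (p ^ k)) (n : Fin c.natDegree) => ml (B e) (dec (p ^ k) r x) n) =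
        fun (r : Fin (p ^ k)) (n : Fin c.natDegree) => ml (B e') (dec (p ^ k) r x) n :=
      congrArg (fun z => z.2.1) hee
    have h3 : (fun (i : Fin R) (n : Fin (L + (δ + E))) => ml (B e) (y i) n) =
        fun (i : Fin R) (n : Fin (L + (δ + E))) => ml (B e') (y i) n := congrArg (fun z => z.2.2) hee
    have hmod : ∀ i, e i % p ^ k = e' i % p ^ k := fun i => Fin.mk.inj (congrFun h1 i)
    -- the decimations
    have hdec : ∀ r : Fin (p ^ k), ∀ n < L + δ, ml (B e) (dec (p ^ k) r x) n = ml (B e') (dec (p ^ k) r x) n := by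
      intro r n hn
      have hst := step c hc (L + δ) (⟨ml (B e) (dec (p ^ k) r x)⟩ : Torus F) ⟨ml (B e') (dec (p ^ k) r x)⟩
        (fun i hi => congrFun (congrFun h2 r) ⟨i, hi⟩) (fun i hi => by
          show ml c (ml (B e) (dec (p ^ k) r x)) i = ml c (ml (B e') (dec (p ^ k) r x)) i
          rw [ml_comm, ml_comm c (B e'), hd r, ml_sum, ml_sum, Finset.sum_apply, Finset.sum_apply]
          refine Finset.sum_congr rfl fun j _ => ?_
          rw [ml_comm, ml_comm (B e')]
          exact ml_congr (d r j) E (L + δ) (hE r j) _ _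
            (fun n hn => congrFun (congrFun h3 j) ⟨n, by omega⟩) i hi) n (by omega)
      exact hst
    funext i
    have hi : (i : ℕ) < p ^ k * L := i.2
    have hB : ∀ e : Fin m → ℕ, (∏ i, A i ^ e i) = (∏ i, A i ^ (e i % p ^ k)) * (∏ i, A i ^ (e i / p ^ k)) ^ p ^ k := by
      intro e
      rw [← Finset.prod_pow, ← Finset.prod_mul_distrib]
      refine Finset.prod_congr rfl fun i _ => ?_
      rw [← pow_mul, ← pow_add]
      congr 1
      rw [mul_comm]
      exact (Nat.mod_add_div _ _).symm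
    show ml (∏ i, A i ^ e i) x i = ml (∏ i, A i ^ e' i) x i
    rw [hB e, hB e', ml_mul, ml_mul]
    have hprod : (∏ i, A i ^ (e i % p ^ k)) = ∏ i, A i ^ (e' i % p ^ k) :=
      Finset.prod_congr rfl fun i _ => by rw [hmod i]
    rw [← hprod]
    unfold ml
    refine Finset.sum_congr rfl fun a ha => ?_
    congr 1
    have hdeg : (∏ i, A i ^ (e i % p ^ k)).natDegree ≤ (p ^ k - 1) * δ := by
      rw [hδ]
      exact natDegree_le A (fun i => e i % p ^ k) (fun i => by have := Nat.mod_lt (e i) hQ0; omega)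
    have ha2 : a ≤ (p ^ k - 1) * δ := by
      have := Finset.mem_range.1 ha
      omega
    have hlt : ((i : ℕ) + a) / p ^ k < L + δ := by
      rw [Nat.div_lt_iff_lt_mul hQ0]
      have h1 : (p ^ k - 1) * δ ≤ p ^ k * δ := Nat.mul_le_mul_right _ (by omega)
      have h2 : (L + δ) * p ^ k = p ^ k * L + p ^ k * δ := by ring
      omega
    have hk1 := key (F := F) p k rfl (∏ i, A i ^ (e i / p ^ k)) x ((i : ℕ) + a)
    have hk2 := key (F := F) p k rfl (∏ i, A i ^ (e' i / p ^ k)) x ((i : ℕ) + a)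
    unfold ml at hk1 hk2
    rw [← hk1, ← hk2]
    exact hdec ⟨((i : ℕ) + a) % p ^ k, Nat.mod_lt _ hQ0⟩ _ hlt
  have hset : {w : Fin (p ^ k * L) → F | ∃ e : Fin m → ℕ, w = fun i : Fin (p ^ k * L) => ml (∏ i, A i ^ e i) x i} =
      Set.range f := by
    ext w
    constructor
    · rintro ⟨e, rfl⟩
      exact ⟨e, rfl⟩
    · rintro ⟨e, rfl⟩
      exact ⟨e, rfl⟩
  rw [hset]
  refine (ncard_range_le f g hfg).trans (le_of_eq ?_)
  rw [Nat.card_eq_fintype_card, Fintype.card_prod, Fintype.card_prod, Fintype.card_fun, Fintype.card_fun,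
    Fintype.card_fun, Fintype.card_fun, Fintype.card_fun, Fintype.card_fin, Fintype.card_fin, Fintype.card_fin,
    Fintype.card_fin, Fintype.card_fin, ← pow_mul (Fintype.card F) c.natDegree (p ^ k),
    ← pow_mul (Fintype.card F) (L + (δ + E)) R, mul_comm c.natDegree (p ^ k), mul_assoc]

variable [Fintype F]

/-- the upper bound -/
theorem dim_upper (p : ℕ) [Fact p.Prime] [CharP F p] (x : Torus F) (k R : ℕ) (hR : RankLE x (p ^ k) R)
    (m : ℕ) (A : Fin m → F[X]) :
    dimH (closure (orbit A x)) ≤ (R : ℝ≥0∞) / ((p ^ k : ℕ) : ℝ≥0∞) := by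
  classical
  have hq : (1 : ℝ) < Fintype.card F := by exact_mod_cast Fintype.one_lt_card
  have hp : 2 ≤ p := (Fact.out : p.Prime).two_le
  have hQ : 0 < p ^ k := by positivity
  obtain ⟨y, c, hc, hd⟩ := hR
  choose! d hd using hd
  obtain ⟨D, hD⟩ := count4 p x.digit k m R A (fun i => (y i).digit) c hc (fun r => d r) (fun r => by
    funext n
    have h := hd r r.2 n
    rw [Finset.sum_apply]
    exact h)
  apply le_of_forall_gt_imp_ge_of_dense
  intro s' hs'
  rcases eq_or_ne s' ⊤ with rfl | hne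
  · exact le_top
  lift s' to ℝ≥0 using hne
  have hs : (R : ℝ) < s' * (p ^ k : ℕ) := by
    have h0 : ((p ^ k : ℕ) : ℝ≥0∞) ≠ 0 := by exact_mod_cast hQ.ne'
    rw [ENNReal.div_lt_iff (Or.inl h0) (Or.inl (ENNReal.natCast_ne_top _))] at hs'
    exact_mod_cast hs'
  have hnum := numeric (Fintype.card F : ℝ) hq
    (((p ^ k : ℕ) : ℝ) ^ m * (Fintype.card F : ℝ) ^ (p ^ k * c.natDegree)) (p ^ k) R D s' hs
  have hL : Tendsto (fun L : ℕ => p ^ k * L) atTop atTop := tendsto_id.const_mul_atTop' hQ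
  have hwords : ∀ L, (words (p ^ k * L) (closure (orbit A x))).ncard ≤
      (p ^ k) ^ m * (Fintype.card F) ^ (p ^ k * c.natDegree) * (Fintype.card F) ^ ((L + D) * R) := by
    intro L
    rw [Pool.Agent.H599.UP.words_closure]
    refine le_trans (le_of_eq ?_) (hD L)
    congr 1
    ext w
    constructor
    · rintro ⟨y, ⟨e, rfl⟩, hw⟩
      exact ⟨e, funext fun i => hw i⟩
    · rintro ⟨e, he⟩
      exact ⟨_, ⟨e, rfl⟩, fun i => congrFun he i⟩
  refine Pool.Agent.H599.FF2.dimH_le_of_covers (closure (orbit A x)) (Fintype.card F : ℝ) hq s'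
    (fun L => Nat.card (words (p ^ k * L) (closure (orbit A x)))) (fun L => p ^ k * L) hL
    (fun L i => {y : Torus F | ∀ j : Fin (p ^ k * L), y.digit j =
      ((Finite.equivFin (words (p ^ k * L) (closure (orbit A x)))).symm i : Fin (p ^ k * L) → F) j}) ?_ ?_ ?_
  · intro L i
    apply Metric.ediam_le
    intro y hy z hz
    rw [edist_dist]
    apply ENNReal.ofReal_le_ofReal
    have h1 : distance y z ≤ ((Fintype.card F : ℝ)⁻¹) ^ (p ^ k * L + 1) :=
      (distance_le y z (p ^ k * L)).2 fun n hn => (hy ⟨n, hn⟩).trans (hz ⟨n, hn⟩).symm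
    refine h1.trans ?_
    exact pow_le_pow_of_le_one (by positivity) (inv_lt_one_of_one_lt₀ hq).le (Nat.le_succ _)
  · intro L y hy
    refine Set.mem_iUnion.2 ⟨Finite.equivFin (words (p ^ k * L) (closure (orbit A x)))
      ⟨fun j => y.digit j, ⟨y, hy, fun _ => rfl⟩⟩, ?_⟩
    intro j
    rw [Equiv.symm_apply_apply]
  · refine hnum.mono fun L hL => le_trans ?_ hL
    apply mul_le_mul_of_nonneg_right _ (by positivity)
    rw [Nat.card_coe_set_eq]
    exact_mod_cast hwords L

end Pool.Agent.H599.RK
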