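import Pool.Agent.H599.RK
import Pool.Agent.H599.SP.LB
import Pool.Agent.H599.SP.CMP

set_option autoImplicit false

/-!
# The rank of the decimations is the dimension of the closure of the orbit of all `p ^ k`-th powers
-/

open Polynomial Filter Topology
open scoped ENNReal NNReal
open Pool.Agent.H599.Tor

namespace Pool.Agent.H599.RK

open Pool.Agent.H599.FF Pool.Agent.H599.EX.YWaux

variable {F : Type} [Field F]

/-- independence -/
def Indep (x : Torus F) (Q : ℕ) (S : Finset ℕ) : Prop :=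
  ∀ c : ℕ → F[X], (∀ n, ∑ r ∈ S, ml (c r) (decimation x Q r).digit n = 0) → ∀ r ∈ S, c r = 0

lemma ml_zero (x : ℕ → F) : ml 0 x = 0 := by
  rw [ml_eq, map_zero]
  rfl

lemma ml_one (x : ℕ → F) : ml 1 x = x := by
  rw [ml_eq, map_one]
  rfl

lemma ml_neg (A : F[X]) (x : ℕ → F) : ml (-A) x = - ml A x := by
  rw [ml_eq, ml_eq, map_neg]
  rfl

/-- a maximal independent set of decimations -/
theorem exists_indep (x : Torus F) (Q : ℕ) :
    ∃ S : Finset ℕ, S ⊆ Finset.range Q ∧ Indep x Q S ∧ RankLE x Q S.card := by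
  classical
  obtain ⟨S, hS, hmax⟩ := Finset.exists_max_image ((Finset.range Q).powerset.filter (fun S => Indep x Q S))
    (fun S => S.card) ⟨∅, by
      rw [Finset.mem_filter]
      refine ⟨Finset.empty_mem_powerset _, fun c _ r hr => absurd hr (Finset.notMem_empty r)⟩⟩
  rw [Finset.mem_filter, Finset.mem_powerset] at hS
  refine ⟨S, hS.1, hS.2, ?_⟩
  have hrel : ∀ r : ℕ, ∃ (a : F[X]) (d : ℕ → F[X]), a ≠ 0 ∧ (r < Q →
      ml a (decimation x Q r).digit = ∑ s ∈ S, ml (d s) (decimation x Q s).digit) := by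
    intro r
    by_cases hrQ : r < Q
    swap
    · exact ⟨1, fun _ => 0, one_ne_zero, fun h => absurd h hrQ⟩
    by_cases hr : r ∈ S
    · refine ⟨1, fun s => if s = r then 1 else 0, one_ne_zero, fun _ => ?_⟩
      rw [Finset.sum_eq_single r]
      · show _ = ml (if r = r then 1 else 0) (decimation x Q r).digit
        rw [if_pos rfl]
      · intro b _ hb
        show ml (if b = r then 1 else 0) (decimation x Q b).digit = 0
        rw [if_neg hb, ml_zero]
      · intro h
        exact absurd hr h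
    · have hni : ¬ Indep x Q (insert r S) := by
        intro h
        have h1 := hmax (insert r S) (Finset.mem_filter.2 ⟨Finset.mem_powerset.2 (Finset.insert_subset
          (Finset.mem_range.2 hrQ) hS.1), h⟩)
        rw [Finset.card_insert_of_notMem hr] at h1
        omega
      unfold Indep at hni
      push Not at hni
      obtain ⟨c, hc, r', hr', hr'c⟩ := hni
      have hcr : c r ≠ 0 := by
        intro h0
        have h1 := hS.2 c (fun n => by
          have := hc n
          rw [Finset.sum_insert hr, h0, ml_zero] at this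
          simpa using this)
        rcases Finset.mem_insert.1 hr' with h2 | h2
        · rw [h2] at hr'c
          exact hr'c h0
        · exact hr'c (h1 r' h2)
      refine ⟨c r, fun s => - c s, hcr, fun _ => ?_⟩
      funext n
      have h1 := hc n
      rw [Finset.sum_insert hr] at h1
      rw [Finset.sum_apply]
      simp only [ml_neg, Pi.neg_apply, Finset.sum_neg_distrib]
      exact eq_neg_of_add_eq_zero_left h1
  choose a d ha hd using hrel
  refine ⟨fun i => decimation x Q (S.equivFin.symm i), ∏ r ∈ Finset.range Q, a r,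
    Finset.prod_ne_zero_iff.2 fun r _ => ha r, fun r hr => ?_⟩
  refine ⟨fun i => (∏ r' ∈ (Finset.range Q).erase r, a r') * d r (S.equivFin.symm i), fun n => ?_⟩
  show ml (∏ r ∈ Finset.range Q, a r) (decimation x Q r).digit n =
    ∑ i, ml ((∏ r' ∈ (Finset.range Q).erase r, a r') * d r (S.equivFin.symm i))
      (decimation x Q (S.equivFin.symm i)).digit n
  rw [← Finset.prod_erase_mul _ _ (Finset.mem_range.2 hr), ml_mul, hd r hr, ml_sum, Finset.sum_apply,
    ← Finset.sum_coe_sort S, ← S.equivFin.symm.sum_comp]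
  refine Finset.sum_congr rfl fun i _ => ?_
  rw [ml_mul]

/-- the density -/
theorem dense (x : Torus F) (Q : ℕ) (S : Finset ℕ) (hS : Indep x Q S) (L : ℕ) (w : ℕ → ℕ → F) :
    ∃ B : F[X], ∀ r ∈ S, ∀ n < L, ml B (decimation x Q r).digit n = w r n := by
  classical
  let Φ : F[X] →ₗ[F] (↥S × Fin L → F) :=
    { toFun := fun B => fun i => ml B (decimation x Q i.1).digit i.2
      map_add' := fun A B => by
        funext i
        show ml (A + B) _ _ = ml A _ _ + ml B _ _
        rw [ml_eq, ml_eq, ml_eq, map_add]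
        rfl
      map_smul' := fun a B => by
        funext i
        show ml (a • B) _ _ = a • ml B _ _
        rw [ml_eq, ml_eq, map_smul]
        rfl }
  have hsurj : LinearMap.range Φ = ⊤ := by
    by_contra hne
    obtain ⟨f, hf0, hf⟩ := Submodule.exists_le_ker_of_lt_top _ (lt_top_iff_ne_top.2 hne)
    apply hf0
    let b : ↥S × Fin L → F := fun i => f (fun j => if i = j then 1 else 0)
    have hfb : ∀ v, f v = ∑ i, v i * b i := by
      intro v
      rw [LinearMap.pi_apply_eq_sum_univ f v]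
      rfl
    let c : ℕ → F[X] := fun r => if h : r ∈ S then ∑ n : Fin L, C (b (⟨r, h⟩, n)) * X ^ (n : ℕ) else 0
    have hc : ∀ n, ∑ r ∈ S, ml (c r) (decimation x Q r).digit n = 0 := by
      intro j
      have h1 : f (Φ (X ^ j)) = 0 := hf (LinearMap.mem_range_self Φ (X ^ j))
      rw [hfb, Fintype.sum_prod_type] at h1
      rw [← Finset.sum_coe_sort S]
      rw [← h1]
      refine Finset.sum_congr rfl fun r _ => ?_
      have h2 : c r = ∑ n : Fin L, C (b (r, n)) * X ^ (n : ℕ) := by
        show (if h : (r : ℕ) ∈ S then ∑ n : Fin L, C (b (⟨r, h⟩, n)) * X ^ (n : ℕ) else 0) = _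
        rw [dif_pos r.2]
      rw [h2, ml_eq, map_sum, LinearMap.sum_apply, Finset.sum_apply]
      refine Finset.sum_congr rfl fun n _ => ?_
      show _ = ml (X ^ j) (decimation x Q r).digit n * b (r, n)
      rw [ml_eq, map_mul, aeval_C, map_pow, map_pow, aeval_X, Module.End.mul_apply, sh_pow]
      rw [Module.algebraMap_end_apply, Pi.smul_apply, sh_pow, smul_eq_mul, mul_comm, add_comm]
    have h0 := hS c hc
    have hb : ∀ i, b i = 0 := by
      rintro ⟨r, n⟩
      have h1 := h0 r r.2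
      have h2 : c r = ∑ n : Fin L, C (b (r, n)) * X ^ (n : ℕ) := by
        show (if h : (r : ℕ) ∈ S then ∑ n : Fin L, C (b (⟨r, h⟩, n)) * X ^ (n : ℕ) else 0) = _
        rw [dif_pos r.2]
      rw [h2] at h1
      have h3 := congrArg (fun P : F[X] => P.coeff n) h1
      simp only [finsetSum_coeff, coeff_C_mul, coeff_X_pow, coeff_zero] at h3
      rw [Finset.sum_eq_single n] at h3
      · simpa using h3
      · intro m _ hm
        rw [if_neg (fun h => hm (Fin.ext h.symm)), mul_zero]
      · intro h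
        exact absurd (Finset.mem_univ n) h
    refine LinearMap.ext fun v => ?_
    rw [hfb]
    simp [hb]
  obtain ⟨B, hB⟩ := LinearMap.range_eq_top.1 hsurj (fun i => w i.1 i.2)
  exact ⟨B, fun r hr n hn => congrFun hB (⟨r, hr⟩, ⟨n, hn⟩)⟩

/-- the words of the orbit of the powers -/
theorem count5 (p : ℕ) [Fact p.Prime] [CharP F p] [Fintype F] (x : ℕ → F) (k R : ℕ)
    (y : Fin R → ℕ → F) (c : F[X]) (hc : c ≠ 0) (d : Fin (p ^ k) → Fin R → F[X])
    (hd : ∀ r : Fin (p ^ k), ml c (dec (p ^ k) r x) = ∑ i, ml (d r i) (y i)) : ∃ D : ℕ, ∀ L : ℕ,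
    {w : Fin (p ^ k * L) → F | ∃ B : F[X], w = fun i : Fin (p ^ k * L) => ml (B ^ p ^ k) x i}.ncard ≤
      (Fintype.card F) ^ (p ^ k * c.natDegree) * (Fintype.card F) ^ ((L + D) * R) := by
  classical
  have hp : 0 < p := (Fact.out : p.Prime).pos
  have hQ0 : 0 < p ^ k := by positivity
  obtain ⟨E, hE⟩ : ∃ E : ℕ, ∀ r i, (d r i).natDegree ≤ E :=
    ⟨∑ r, ∑ i, (d r i).natDegree, fun r i => (Finset.single_le_sum (f := fun i => (d r i).natDegree)
      (fun _ _ => Nat.zero_le _) (Finset.mem_univ i)).trans (Finset.single_le_sum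
        (f := fun r => ∑ i, (d r i).natDegree) (fun _ _ => Nat.zero_le _) (Finset.mem_univ r))⟩
  refine ⟨E, fun L => ?_⟩
  let f : F[X] → (Fin (p ^ k * L) → F) := fun B => fun i : Fin (p ^ k * L) => ml (B ^ p ^ k) x i
  let g : F[X] → (Fin (p ^ k) → Fin c.natDegree → F) × (Fin R → Fin (L + E) → F) := fun B =>
    (fun r n => ml (map (iterateFrobenius F p k) B) (dec (p ^ k) r x) n,
      fun i n => ml (map (iterateFrobenius F p k) B) (y i) n)
  have hfg : ∀ B B', g B = g B' → f B = f B' := by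
    intro B₀ B₀' hee
    obtain ⟨B, hB⟩ : ∃ B, B = map (iterateFrobenius F p k) B₀ := ⟨_, rfl⟩
    obtain ⟨B', hB'⟩ : ∃ B, B = map (iterateFrobenius F p k) B₀' := ⟨_, rfl⟩
    have h2 : (fun (r : Fin (p ^ k)) (n : Fin c.natDegree) => ml B (dec (p ^ k) r x) n) =
        fun (r : Fin (p ^ k)) (n : Fin c.natDegree) => ml B' (dec (p ^ k) r x) n := by
      rw [hB, hB']
      exact congrArg (fun z => z.1) hee
    have h3 : (fun (i : Fin R) (n : Fin (L + E)) => ml B (y i) n) =
        fun (i : Fin R) (n : Fin (L + E)) => ml B' (y i) n := by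
      rw [hB, hB']
      exact congrArg (fun z => z.2) hee
    -- the decimations
    have hdec : ∀ r : Fin (p ^ k), ∀ n < L, ml B (dec (p ^ k) r x) n = ml B' (dec (p ^ k) r x) n := by
      intro r n hn
      have hst := step c hc L (⟨ml B (dec (p ^ k) r x)⟩ : Torus F) ⟨ml B' (dec (p ^ k) r x)⟩
        (fun i hi => congrFun (congrFun h2 r) ⟨i, hi⟩) (fun i hi => by
          show ml c (ml B (dec (p ^ k) r x)) i = ml c (ml B' (dec (p ^ k) r x)) i
          rw [ml_comm, ml_comm c B', hd r, ml_sum, ml_sum, Finset.sum_apply, Finset.sum_apply]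
          refine Finset.sum_congr rfl fun j _ => ?_
          rw [ml_comm, ml_comm B']
          exact ml_congr (d r j) E L (hE r j) _ _
            (fun n hn => congrFun (congrFun h3 j) ⟨n, by omega⟩) i hi) n (by omega)
      exact hst
    funext i
    have hi : (i : ℕ) < p ^ k * L := i.2
    show ml (B₀ ^ p ^ k) x i = ml (B₀' ^ p ^ k) x i
    have hlt : (i : ℕ) / p ^ k < L := by
      rw [Nat.div_lt_iff_lt_mul hQ0]
      linarith [Nat.mul_comm (p ^ k) L]
    have hk1 := key (F := F) p k rfl B₀ x i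
    have hk2 := key (F := F) p k rfl B₀' x i
    rw [← hk1, ← hk2, ← hB, ← hB']
    exact hdec ⟨(i : ℕ) % p ^ k, Nat.mod_lt _ hQ0⟩ _ hlt
  have hset : {w : Fin (p ^ k * L) → F | ∃ B : F[X], w = fun i : Fin (p ^ k * L) => ml (B ^ p ^ k) x i} =
      Set.range f := by
    ext w
    constructor
    · rintro ⟨e, rfl⟩
      exact ⟨e, rfl⟩
    · rintro ⟨e, rfl⟩
      exact ⟨e, rfl⟩
  rw [hset]
  refine (ncard_range_le f g hfg).trans (le_of_eq ?_)
  rw [Nat.card_eq_fintype_card, Fintype.card_prod, Fintype.card_fun, Fintype.card_fun,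
    Fintype.card_fun, Fintype.card_fun, Fintype.card_fin, Fintype.card_fin, Fintype.card_fin,
    Fintype.card_fin, ← pow_mul (Fintype.card F) c.natDegree (p ^ k),
    ← pow_mul (Fintype.card F) (L + E) R, mul_comm c.natDegree (p ^ k)]

variable [Fintype F]

/-- from words to the dimension -/
theorem dim_of_words (E : Set (Torus F)) (Q R : ℕ) (hQ : 0 < Q) (C D : ℕ)
    (hwords : ∀ L, (words (Q * L) E).ncard ≤ C * (Fintype.card F) ^ ((L + D) * R)) :
    dimH (closure E) ≤ (R : ℝ≥0∞) / (Q : ℝ≥0∞) := by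
  classical
  have hq : (1 : ℝ) < Fintype.card F := by exact_mod_cast Fintype.one_lt_card
  apply le_of_forall_gt_imp_ge_of_dense
  intro s' hs'
  rcases eq_or_ne s' ⊤ with rfl | hne
  · exact le_top
  lift s' to ℝ≥0 using hne
  have hs : (R : ℝ) < s' * (Q : ℕ) := by
    have h0 : (Q : ℝ≥0∞) ≠ 0 := by exact_mod_cast hQ.ne'
    rw [ENNReal.div_lt_iff (Or.inl h0) (Or.inl (ENNReal.natCast_ne_top _))] at hs'
    exact_mod_cast hs'
  have hnum := numeric (Fintype.card F : ℝ) hq (C : ℝ) Q R D s' hs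
  have hL : Tendsto (fun L : ℕ => Q * L) atTop atTop := tendsto_id.const_mul_atTop' hQ
  refine Pool.Agent.H599.FF2.dimH_le_of_covers (closure E) (Fintype.card F : ℝ) hq s'
    (fun L => Nat.card (words (Q * L) (closure E))) (fun L => Q * L) hL
    (fun L i => {y : Torus F | ∀ j : Fin (Q * L), y.digit j =
      ((Finite.equivFin (words (Q * L) (closure E))).symm i : Fin (Q * L) → F) j}) ?_ ?_ ?_
  · intro L i
    apply Metric.ediam_le
    intro y hy z hz
    rw [edist_dist]
    apply ENNReal.ofReal_le_ofReal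
    have h1 : distance y z ≤ ((Fintype.card F : ℝ)⁻¹) ^ (Q * L + 1) :=
      (distance_le y z (Q * L)).2 fun n hn => (hy ⟨n, hn⟩).trans (hz ⟨n, hn⟩).symm
    refine h1.trans ?_
    exact pow_le_pow_of_le_one (by positivity) (inv_lt_one_of_one_lt₀ hq).le (Nat.le_succ _)
  · intro L y hy
    refine Set.mem_iUnion.2 ⟨Finite.equivFin (words (Q * L) (closure E))
      ⟨fun j => y.digit j, ⟨y, hy, fun _ => rfl⟩⟩, ?_⟩
    intro j
    rw [Equiv.symm_apply_apply]
  · refine hnum.mono fun L hL => le_trans ?_ hL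
    apply mul_le_mul_of_nonneg_right _ (by positivity)
    rw [Nat.card_coe_set_eq, Pool.Agent.H599.UP.words_closure]
    exact_mod_cast hwords L

/-- the orbit of the powers: the upper bound -/
theorem pow_upper (p : ℕ) [Fact p.Prime] [CharP F p] (x : Torus F) (k R : ℕ) (hR : RankLE x (p ^ k) R) :
    dimH (closure (Set.range fun B : F[X] => mul (B ^ p ^ k) x)) ≤ (R : ℝ≥0∞) / ((p ^ k : ℕ) : ℝ≥0∞) := by
  have hp : 2 ≤ p := (Fact.out : p.Prime).two_le
  have hQ : 0 < p ^ k := by positivity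
  obtain ⟨y, c, hc, hd⟩ := hR
  choose! d hd using hd
  obtain ⟨D, hD⟩ := count5 p x.digit k R (fun i => (y i).digit) c hc (fun r => d r) (fun r => by
    funext n
    have h := hd r r.2 n
    rw [Finset.sum_apply]
    exact h)
  refine dim_of_words _ (p ^ k) R hQ ((Fintype.card F) ^ (p ^ k * c.natDegree)) D fun L => ?_
  refine le_trans (le_of_eq ?_) (hD L)
  congr 1
  ext w
  constructor
  · rintro ⟨y, ⟨e, rfl⟩, hw⟩
    exact ⟨e, funext fun i => hw i⟩
  · rintro ⟨e, he⟩
    exact ⟨_, ⟨e, rfl⟩, fun i => congrFun he i⟩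

/-- the orbit of the powers: the lower bound -/
theorem pow_lower (p : ℕ) [Fact p.Prime] [CharP F p] (x : Torus F) (k : ℕ) (S : Finset ℕ)
    (hS1 : S ⊆ Finset.range (p ^ k)) (hS : Indep x (p ^ k) S) :
    (S.card : ℝ≥0∞) / ((p ^ k : ℕ) : ℝ≥0∞) ≤ dimH (closure (Set.range fun B : F[X] => mul (B ^ p ^ k) x)) := by
  classical
  have hp : 2 ≤ p := (Fact.out : p.Prime).two_le
  have hQ : 0 < p ^ k := by positivity
  have : ExpChar F p := ExpChar.prime Fact.out
  refine (Pool.Agent.H599.SP.t_LB F (p ^ k) S hQ fun r hr => Finset.mem_range.1 (hS1 hr)).trans ?_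
  refine Pool.Agent.H599.SP.t_CMP F _ (p ^ k) S hQ fun L w => ?_
  obtain ⟨G, hG⟩ := dense x (p ^ k) S hS L (fun r n => w (p ^ k * n + r))
  have hbij : Function.Surjective (iterateFrobenius F p k) :=
    Finite.surjective_of_injective (iterateFrobenius F p k).injective
  obtain ⟨B, hB⟩ := Polynomial.map_surjective _ hbij G
  refine ⟨mul (B ^ p ^ k) x, ⟨B, rfl⟩, fun n hn hnS => ?_⟩
  show ml (B ^ p ^ k) x.digit n = w n
  rw [← key (F := F) p k rfl B x.digit n, hB]
  have h1 := hG (n % p ^ k) hnS (n / p ^ k) (lt_of_le_of_lt (Nat.div_le_self _ _) hn)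
  rw [Nat.div_add_mod] at h1
  exact h1

/-- the rank is a dimension -/
theorem pow_dim (p : ℕ) [Fact p.Prime] [CharP F p] (x : Torus F) (k : ℕ) :
    dimH (closure (Set.range fun B : F[X] => mul (B ^ p ^ k) x)) =
      (rank x (p ^ k) : ℝ≥0∞) / ((p ^ k : ℕ) : ℝ≥0∞) := by
  obtain ⟨S, hS1, hS2, hS3⟩ := exists_indep x (p ^ k)
  have hmem : RankLE x (p ^ k) (rank x (p ^ k)) := Nat.sInf_mem (s := {R : ℕ | RankLE x (p ^ k) R}) ⟨_, hS3⟩
  have hle : rank x (p ^ k) ≤ S.card := Nat.sInf_le hS3
  apply le_antisymm (pow_upper p x k _ hmem)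
  refine le_trans ?_ (pow_lower p x k S hS1 hS2)
  exact ENNReal.div_le_div_right (by exact_mod_cast hle) _

/-- the upper bound for all joint orbits -/
theorem dim_upper_rank (p : ℕ) [Fact p.Prime] [CharP F p] (x : Torus F) (k m : ℕ) (A : Fin m → F[X]) :
    dimH (closure (orbit A x)) ≤ (rank x (p ^ k) : ℝ≥0∞) / ((p ^ k : ℕ) : ℝ≥0∞) := by
  obtain ⟨S, -, -, hS3⟩ := exists_indep x (p ^ k)
  exact dim_upper p x k _ (Nat.sInf_mem (s := {R : ℕ | RankLE x (p ^ k) R}) ⟨_, hS3⟩) m A

end Pool.Agent.H599.RK
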