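import Pool.Agent.H599.Tor

set_option autoImplicit false

/-!
# The rank of the decimations over `F(t)`
-/

open Polynomial
open Pool.Agent.H599.Tor

namespace Pool.Agent.H599.RK

/-- the sequence `(x_{Q n + r})_n` of every `Q`-th coefficient of `x` -/
def decimation {F : Type} (x : Torus F) (Q r : ℕ) : Torus F := ⟨fun n => x.digit (Q * n + r)⟩

/-- the decimations `(x_{Q n + r})_n`, `0 ≤ r < Q`, span modulo `F(t)` a vector space over `F(t)` of dimension at
most `R`: there are `y_1, …, y_R` and a polynomial `c ≠ 0` such that the product of `c` and each decimation is a linear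
combination of `y_1, …, y_R` with coefficients in `F[t]`, modulo `F[t]` -/
def RankLE {F : Type} [Field F] (x : Torus F) (Q R : ℕ) : Prop :=
  ∃ (y : Fin R → Torus F) (c : F[X]), c ≠ 0 ∧ ∀ r < Q, ∃ d : Fin R → F[X], ∀ n,
    (mul c (decimation x Q r)).digit n = ∑ i, (mul (d i) (y i)).digit n

/-- the dimension over `F(t)` of the span of the decimations `(x_{Q n + r})_n`, `0 ≤ r < Q`, modulo `F(t)` -/
noncomputable def rank {F : Type} [Field F] (x : Torus F) (Q : ℕ) : ℕ := sInf {R : ℕ | RankLE x Q R}

end Pool.Agent.H599.RK
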