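import Pool.Agent.H599.FF1

set_option autoImplicit false

/-!
# The compact group `F((1/t)) / F[t]` and its metric
-/

open Polynomial Filter Topology
open scoped ENNReal NNReal

namespace Pool.Agent.H599.Tor

/-- the elements `x = x₀ t⁻¹ + x₁ t⁻² + ⋯` of the compact group `F((1/t)) / F[t]`, which takes the place of `ℝ/ℤ`;
`digit n` is the coefficient `x_n` of `t ^ (-(n + 1))` -/
@[ext] structure Torus (F : Type) where
  /-- the coefficients -/
  digit : ℕ → F

open Classical in
/-- the distance: `q ^ (-(n + 1))` if `n` is the first index for which the coefficients differ, `q` is the number of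
the elements of `F` -/
noncomputable def distance {F : Type} [Fintype F] (x y : Torus F) : ℝ :=
  if h : ∃ n, x.digit n ≠ y.digit n then ((Fintype.card F : ℝ)⁻¹) ^ (Nat.find h + 1) else 0

lemma distance_le {F : Type} [Field F] [Fintype F] (x y : Torus F) (L : ℕ) :
    distance x y ≤ ((Fintype.card F : ℝ)⁻¹) ^ (L + 1) ↔ ∀ n < L, x.digit n = y.digit n := by
  classical
  have hq : (1 : ℝ) < Fintype.card F := by exact_mod_cast Fintype.one_lt_card
  have hqi0 : (0:ℝ) < (Fintype.card F : ℝ)⁻¹ := by positivity
  have hqi1 : (Fintype.card F : ℝ)⁻¹ < 1 := inv_lt_one_of_one_lt₀ hq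
  unfold distance
  by_cases h : ∃ n, x.digit n ≠ y.digit n
  · rw [dif_pos h, pow_le_pow_iff_right_of_lt_one₀ hqi0 hqi1]
    constructor
    · intro h1 n hn
      by_contra h2
      have := Nat.find_min' h h2
      omega
    · intro h1
      have h2 := Nat.find_spec h
      by_contra h3
      exact h2 (h1 _ (by omega))
  · rw [dif_neg h]
    push Not at h
    exact ⟨fun _ n _ => h n, fun _ => by positivity⟩

lemma distance_nonneg {F : Type} [Fintype F] (x y : Torus F) : 0 ≤ distance x y := by
  unfold distance
  split_ifs <;> positivity

lemma distance_swap {F : Type} [Field F] [Fintype F] (x y : Torus F) : distance x y ≤ distance y x := by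
  classical
  by_cases h : ∃ n, y.digit n ≠ x.digit n
  · have e : distance y x = ((Fintype.card F : ℝ)⁻¹) ^ (Nat.find h + 1) := by
      unfold distance
      rw [dif_pos h]
    rw [e, distance_le]
    intro n hn
    by_contra h1
    have := Nat.find_min' h (fun h2 => h1 h2.symm)
    omega
  · have e : distance x y = 0 := by
      unfold distance
      rw [dif_neg]
      rintro ⟨n, hn⟩
      exact h ⟨n, fun h2 => hn h2.symm⟩
    rw [e]
    exact distance_nonneg y x

noncomputable instance {F : Type} [Field F] [Fintype F] : MetricSpace (Torus F) where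
  dist := distance
  dist_self x := by
    show distance x x = 0
    unfold distance
    rw [dif_neg]
    simp
  dist_comm x y := by
    exact le_antisymm (distance_swap x y) (distance_swap y x)
  dist_triangle x y z := by
    classical
    show distance x z ≤ distance x y + distance y z
    by_cases h : ∃ n, x.digit n ≠ z.digit n
    · have h1 := Nat.find_spec h
      have e : distance x z = ((Fintype.card F : ℝ)⁻¹) ^ (Nat.find h + 1) := by
        unfold distance
        rw [dif_pos h]
      rw [e]
      have hq : (1 : ℝ) < Fintype.card F := by exact_mod_cast Fintype.one_lt_card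
      have hqi1 : (Fintype.card F : ℝ)⁻¹ < 1 := inv_lt_one_of_one_lt₀ hq
      by_cases h2 : x.digit (Nat.find h) = y.digit (Nat.find h)
      · have h3 : ∃ n, y.digit n ≠ z.digit n := ⟨_, fun h4 => h1 (h2.trans h4)⟩
        have h5 : Nat.find h3 ≤ Nat.find h := Nat.find_min' h3 (fun h4 => h1 (h2.trans h4))
        have h6 : distance y z = ((Fintype.card F : ℝ)⁻¹) ^ (Nat.find h3 + 1) := by
          unfold distance
          rw [dif_pos h3]
        rw [h6]
        have h7 := pow_le_pow_of_le_one (by positivity) hqi1.le (Nat.succ_le_succ h5)
        have h8 := distance_nonneg x y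
        simp only [Nat.succ_eq_add_one] at h7
        linarith
      · have h3 : ∃ n, x.digit n ≠ y.digit n := ⟨_, h2⟩
        have h5 : Nat.find h3 ≤ Nat.find h := Nat.find_min' h3 h2
        have h6 : distance x y = ((Fintype.card F : ℝ)⁻¹) ^ (Nat.find h3 + 1) := by
          unfold distance
          rw [dif_pos h3]
        rw [h6]
        have h7 := pow_le_pow_of_le_one (by positivity) hqi1.le (Nat.succ_le_succ h5)
        have h8 := distance_nonneg y z
        simp only [Nat.succ_eq_add_one] at h7
        linarith
    · have e : distance x z = 0 := by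
        unfold distance
        rw [dif_neg h]
      rw [e]
      have h7 := distance_nonneg x y
      have h8 := distance_nonneg y z
      linarith
  eq_of_dist_eq_zero {x y} h := by
    have h1 : distance x y = 0 := h
    have h2 : ∀ L, ∀ n < L, x.digit n = y.digit n := fun L => (distance_le x y L).1 (by rw [h1]; positivity)
    ext n
    exact h2 (n + 1) n (by omega)

variable {F : Type} [Field F]

/-- the product of `x` and the polynomial `A`, modulo `F[t]`: if `A = ∑ a_i t ^ i` then the coefficient of
`t ^ (-(n + 1))` is `∑ a_i x_{n + i}` -/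
noncomputable def mul (A : F[X]) (x : Torus F) : Torus F :=
  ⟨fun n => ∑ i ∈ Finset.range (A.natDegree + 1), A.coeff i * x.digit (n + i)⟩

/-- the orbit of `x` under the multiplications by all products of powers of the polynomials `A i` -/
def orbit {m : ℕ} (A : Fin m → F[X]) (x : Torus F) : Set (Torus F) :=
  Set.range fun e : Fin m → ℕ => mul (∏ i, A i ^ e i) x

/-- the words of length `L` which the elements of `E` begin with -/
def words (L : ℕ) (E : Set (Torus F)) : Set (Fin L → F) := {w | ∃ y ∈ E, ∀ i, w i = y.digit i}

/-- the number of different sequences among the sequences `(x_{Q n + r})_n`, `0 ≤ r < Q` -/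
noncomputable def decimations (x : Torus F) (Q : ℕ) : ℕ :=
  {y : ℕ → F | ∃ r < Q, y = fun n => x.digit (Q * n + r)}.ncard

/-- `x` is irrational, that is, not in `F(t)`: no product `B x` with a polynomial `B ≠ 0` is a polynomial -/
def Irrational (x : Torus F) : Prop := ∀ B : F[X], B ≠ 0 → ∃ n, (mul B x).digit n ≠ 0

open Classical in
/-- the element `∑ ε_j t ^ (-p ^ j)` -/
noncomputable def lacunary (p : ℕ) (ε : ℕ → F) : Torus F :=
  ⟨fun n => if n + 1 = p ^ Nat.log p (n + 1) then ε (Nat.log p (n + 1)) else 0⟩

lemma mul_digit (A : F[X]) (x : Torus F) : (mul A x).digit = Pool.Agent.H599.FF.ml A x.digit := rfl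

/-- the elements all of whose nonzero coefficients are at places with a residue in `R` modulo `Q` -/
def Sup (Q : ℕ) (R : Finset ℕ) : Set (Torus F) := {v | ∀ n, n % Q ∉ R → v.digit n = 0}

end Pool.Agent.H599.Tor
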